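import Mathlib

set_option autoImplicit false

open MeasureTheory Set TopologicalSpace Filter Topology

namespace Pool.Agent.Helper393.WB

/-- Uniform finite dependence of continuous functions on compact subsets of a Cantor cube. -/
theorem finite_dep {X : Type} {K : Set (X → Bool)} (hK : IsCompact K) (f : C(K, ℝ)) {ε : ℝ}
    (hε : 0 < ε) :
    ∃ F : Finset X, ∀ Z Z' : K, (∀ x ∈ F, Z.1 x = Z'.1 x) → |f Z - f Z'| < ε := by
  classical
  have : CompactSpace K := isCompact_iff_compactSpace.1 hK
  let C : Set (K × K) := {p | ε ≤ |f p.1 - f p.2|}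
  have hC : IsClosed C := isClosed_le continuous_const (by fun_prop)
  have hCc : IsCompact C := hC.isCompact
  let U : X → Set (K × K) := fun x => {p | p.1.1 x ≠ p.2.1 x}
  have hU : ∀ x, IsOpen (U x) := by
    intro x
    have h1 : Continuous fun p : K × K => p.1.1 x :=
      (continuous_apply x).comp (continuous_subtype_val.comp continuous_fst)
    have h2 : Continuous fun p : K × K => p.2.1 x :=
      (continuous_apply x).comp (continuous_subtype_val.comp continuous_snd)
    have : U x = (fun p : K × K => (p.1.1 x, p.2.1 x)) ⁻¹' {q : Bool × Bool | q.1 ≠ q.2} := rfl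
    rw [this]
    exact (isOpen_discrete _).preimage (h1.prodMk h2)
  have hcov : C ⊆ ⋃ x, U x := by
    intro p hp
    by_contra hcon
    simp only [mem_iUnion, not_exists] at hcon
    have : p.1 = p.2 := by
      apply Subtype.ext
      funext x
      have := hcon x
      simpa [U] using this
    have hp' : ε ≤ |f p.1 - f p.2| := hp
    rw [this] at hp'
    simp at hp'
    linarith
  obtain ⟨F, hF⟩ := hCc.elim_finite_subcover U hU hcov
  refine ⟨F, fun Z Z' h => ?_⟩
  by_contra hcon
  push Not at hcon
  have : (Z, Z') ∈ C := hcon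
  have := hF this
  simp only [mem_iUnion] at this
  obtain ⟨x, hx, hne⟩ := this
  exact hne (h x hx)

/-- A continuous function on a compact subset of a Cantor cube factors through countably many
coordinates, through a continuous function on the Cantor space. -/
theorem exists_factor {X : Type} [Nonempty X] {K : Set (X → Bool)} (hK : IsCompact K) (f : C(K, ℝ)) :
    ∃ (ξ : ℕ → X) (F : C(ℕ → Bool, ℝ)), ∀ Z : K, f Z = F (fun i => Z.1 (ξ i)) := by
  classical
  have : CompactSpace K := isCompact_iff_compactSpace.1 hK
  have h1 : ∀ n : ℕ, ∃ F : Finset X, ∀ Z Z' : K, (∀ x ∈ F, Z.1 x = Z'.1 x) →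
      |f Z - f Z'| < 1 / ((n : ℝ) + 1) := fun n => finite_dep hK f (by positivity)
  choose Fn hFn using h1
  let D : Set X := (⋃ n, (Fn n : Set X)) ∪ {Classical.arbitrary X}
  have hD : D.Countable := by
    refine Set.Countable.union (Set.countable_iUnion fun n => (Fn n).countable_toSet) ?_
    exact Set.countable_singleton _
  have hDne : D.Nonempty := ⟨Classical.arbitrary X, Or.inr rfl⟩
  obtain ⟨ξ, hξ⟩ := hD.exists_eq_range hDne
  let ρ : K → (ℕ → Bool) := fun Z i => Z.1 (ξ i)
  have hρ : Continuous ρ := by
    apply continuous_pi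
    intro i
    exact (continuous_apply (ξ i)).comp continuous_subtype_val
  have hfac : ∀ Z Z' : K, ρ Z = ρ Z' → f Z = f Z' := by
    intro Z Z' h
    have hco : ∀ n : ℕ, |f Z - f Z'| < 1 / ((n : ℝ) + 1) := by
      intro n
      apply hFn n
      intro x hx
      have hxD : x ∈ D := Or.inl (mem_iUnion.2 ⟨n, hx⟩)
      rw [hξ] at hxD
      obtain ⟨i, rfl⟩ := hxD
      exact congrFun h i
    have h0 : |f Z - f Z'| ≤ 0 := by
      refine le_of_forall_pos_lt_add ?_
      intro δ hδ
      obtain ⟨n, hn⟩ := exists_nat_one_div_lt hδ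
      have := hco n
      linarith
    have : f Z - f Z' = 0 := abs_eq_zero.1 (le_antisymm h0 (abs_nonneg _))
    linarith
  -- the range is compact, hence closed
  have hrc : IsCompact (range ρ) := isCompact_range hρ
  have hrcl : IsClosed (range ρ) := hrc.isClosed
  let ρ' : K → range ρ := rangeFactorization ρ
  have hρ' : Continuous ρ' := hρ.subtype_mk _
  have hq : IsQuotientMap ρ' :=
    (hρ'.isClosedMap).isQuotientMap hρ' rangeFactorization_surjective
  let g : range ρ → ℝ := fun u => f (Classical.choose u.2)
  have hg : ∀ Z, g (ρ' Z) = f Z := by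
    intro Z
    apply hfac
    exact Classical.choose_spec (ρ' Z).2
  have hgc : Continuous g := by
    rw [hq.continuous_iff]
    have : g ∘ ρ' = f := by
      funext Z; exact hg Z
    rw [this]
    exact f.continuous
  obtain ⟨F, hF⟩ := ContinuousMap.exists_restrict_eq hrcl ⟨g, hgc⟩
  refine ⟨ξ, F, fun Z => ?_⟩
  have := congrArg (fun h : C(range ρ, ℝ) => h (ρ' Z)) hF
  simp only [ContinuousMap.restrict_apply, ContinuousMap.coe_mk] at this
  rw [hg Z] at this
  exact this.symm

end Pool.Agent.Helper393.WB
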