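import Mathlib

set_option autoImplicit false

open MeasureTheory Set TopologicalSpace Filter Topology
open scoped ENNReal

namespace Pool.Agent.Helper393.WB

/-- The uncountable Polish index set of coins. -/
abbrev I := ℕ → Bool

/-- Countable positions. -/
abbrev J := Option (ℕ × ℕ)

/-- The index set of the generators: `J`-indexed families of coins. -/
abbrev X := J → I

/-- The probability space of all coin tosses. -/
abbrev Om := I → Bool

/-- Bernoulli measure with success probability `1/16`. -/
noncomputable def bern : Measure Bool :=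
  (15 / 16 : ℝ≥0∞) • Measure.dirac false + (1 / 16 : ℝ≥0∞) • Measure.dirac true

instance : IsProbabilityMeasure bern := by
  constructor
  simp only [bern, Measure.coe_add, Measure.coe_smul, Pi.add_apply, Pi.smul_apply,
    measure_univ, smul_eq_mul, mul_one]
  rw [ENNReal.div_add_div_same]
  norm_num
  exact ENNReal.div_self (by norm_num) (by norm_num)

theorem bern_true : bern {true} = 1 / 16 := by
  simp [bern]

/-- Product measure. -/
noncomputable def lam : Measure Om := Measure.infinitePi (fun _ : I => bern)

instance : IsProbabilityMeasure lam := by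
  unfold lam; infer_instance

theorem lam_true (s : Finset I) : lam {y | ∀ a ∈ s, y a = true} = (1 / 16) ^ s.card := by
  have h : {y : Om | ∀ a ∈ s, y a = true} = Set.pi s (fun _ => {true}) := by
    ext y; simp
  rw [h, lam, Measure.infinitePi_pi _ (fun i _ => measurableSet_singleton _)]
  simp only [bern_true, Finset.prod_const]

theorem measurable_card_image {κ : Type} [Countable κ] (s : Finset κ) :
    Measurable fun u : κ → I => by classical exact (s.image u).card := by
  classical
  induction s using Finset.induction_on with
  | empty => simp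
  | insert k s hk ih =>
    have hset : MeasurableSet {u : κ → I | u k ∈ s.image u} := by
      have : {u : κ → I | u k ∈ s.image u} = ⋃ k' ∈ s, {u : κ → I | u k' = u k} := by
        ext u; simp
      rw [this]
      refine Finset.measurableSet_biUnion s fun k' _ => ?_
      exact (isClosed_eq (continuous_apply k') (continuous_apply k)).measurableSet
    have heq : (fun u : κ → I => ((insert k s).image u).card) =
        fun u => if u k ∈ s.image u then (s.image u).card else (s.image u).card + 1 := by
      funext u
      rw [Finset.image_insert]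
      split_ifs with h
      · rw [Finset.insert_eq_of_mem h]
      · rw [Finset.card_insert_of_notMem h]
    rw [heq]
    exact Measurable.ite hset ih (ih.add_const 1)

/-- The law of the coin tosses along `u`. -/
noncomputable def law {κ : Type} (u : κ → I) : Measure (κ → Bool) :=
  lam.map fun y k => y (u k)

theorem measurable_tosses {κ : Type} (u : κ → I) : Measurable fun (y : Om) (k : κ) => y (u k) := by
  apply measurable_pi_lambda
  intro k
  exact measurable_pi_apply (u k)

instance {κ : Type} (u : κ → I) : IsProbabilityMeasure (law u) :=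
  Measure.isProbabilityMeasure_map (measurable_tosses u).aemeasurable

theorem law_apply {κ : Type} (u : κ → I) {D : Set (κ → Bool)} (hD : MeasurableSet D) :
    law u D = lam {y | (fun k => y (u k)) ∈ D} :=
  Measure.map_apply (measurable_tosses u) hD

theorem ms_true {κ : Type} (k : κ) : MeasurableSet {b : κ → Bool | b k = true} := by
  have : {b : κ → Bool | b k = true} = (fun b : κ → Bool => b k) ⁻¹' {true} := by ext; simp
  rw [this]
  exact (measurable_pi_apply k) (measurableSet_singleton true)

theorem pi_generate {κ : Type} :
    (MeasurableSpace.pi : MeasurableSpace (κ → Bool)) =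
      .generateFrom (range fun s : Finset κ => {b : κ → Bool | ∀ k ∈ s, b k = true}) := by
  classical
  apply le_antisymm
  · refine iSup_le fun k => ?_
    rw [MeasurableSpace.comap_le_iff_le_map]
    have key : MeasurableSet[.generateFrom (range fun s : Finset κ =>
        {b : κ → Bool | ∀ k ∈ s, b k = true})] {b : κ → Bool | b k = true} := by
      apply MeasurableSpace.measurableSet_generateFrom
      exact ⟨{k}, by simp⟩
    intro t _
    have ht : t = ∅ ∨ t = {true} ∨ t = {false} ∨ t = univ := by
      by_cases h1 : true ∈ t <;> by_cases h2 : false ∈ t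
      · right; right; right; ext b; cases b <;> simp [h1, h2]
      · right; left; ext b; cases b <;> simp [h1, h2]
      · right; right; left; ext b; cases b <;> simp [h1, h2]
      · left; ext b; cases b <;> simp [h1, h2]
    show MeasurableSet[.generateFrom (range fun s : Finset κ =>
        {b : κ → Bool | ∀ k ∈ s, b k = true})] ((fun b : κ → Bool => b k) ⁻¹' t)
    rcases ht with rfl | rfl | rfl | rfl
    · simp
    · exact key
    · have : ((fun b : κ → Bool => b k) ⁻¹' {false}) = {b : κ → Bool | b k = true}ᶜ := by
        ext b; simp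
      rw [this]
      exact key.compl
    · rw [preimage_univ]; exact MeasurableSet.univ
  · apply MeasurableSpace.generateFrom_le
    rintro _ ⟨s, rfl⟩
    have : {b : κ → Bool | ∀ k ∈ s, b k = true} = ⋂ k ∈ s, {b : κ → Bool | b k = true} := by
      ext b; simp
    show MeasurableSet {b : κ → Bool | ∀ k ∈ s, b k = true}
    rw [this]
    exact Finset.measurableSet_biInter s fun k _ => ms_true k

theorem measurable_law {κ : Type} [Countable κ] : Measurable fun u : κ → I => law u := by
  classical
  refine Measurable.measure_of_isPiSystem_of_isProbabilityMeasure pi_generate ?_ ?_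
  · rintro _ ⟨s, rfl⟩ _ ⟨t, rfl⟩ _
    refine ⟨s ∪ t, ?_⟩
    ext b
    simp only [Finset.mem_union, mem_ofPred_eq, mem_inter_iff]
    constructor
    · intro h; exact ⟨fun k hk => h k (Or.inl hk), fun k hk => h k (Or.inr hk)⟩
    · rintro ⟨h1, h2⟩ k (hk | hk)
      · exact h1 k hk
      · exact h2 k hk
  · rintro _ ⟨s, rfl⟩
    have hm : MeasurableSet {b : κ → Bool | ∀ k ∈ s, b k = true} := by
      rw [pi_generate]
      exact MeasurableSpace.measurableSet_generateFrom ⟨s, rfl⟩
    have heq : (fun u : κ → I => law u {b : κ → Bool | ∀ k ∈ s, b k = true}) =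
        fun u => (1 / 16 : ℝ≥0∞) ^ (s.image u).card := by
      funext u
      rw [law_apply u hm, ← lam_true]
      congr 1
      ext y
      simp
    show Measurable fun u : κ → I => law u {b : κ → Bool | ∀ k ∈ s, b k = true}
    rw [heq]
    exact (measurable_from_top (f := fun n : ℕ => (1 / 16 : ℝ≥0∞) ^ n)).comp
      (measurable_card_image s)

/-- The constraint set: the first coin shows `true`, and in each block at most half of the coins
show `true`. -/
def B : Set (J → Bool) :=
  {b | b none = true ∧
    ∀ n : ℕ, 2 * ((Finset.range (n + 6)).filter fun j => b (some (n, j)) = true).card ≤ n + 6}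

theorem measurableSet_blk (n : ℕ) : MeasurableSet {b : J → Bool |
    2 * ((Finset.range (n + 6)).filter fun j => b (some (n, j)) = true).card ≤ n + 6} := by
  have hf : Measurable fun b : J → Bool =>
      2 * ((Finset.range (n + 6)).filter fun j => b (some (n, j)) = true).card := by
    simp only [Finset.card_filter]
    refine Measurable.const_mul ?_ 2
    refine Finset.measurable_sum _ fun j _ => ?_
    exact Measurable.ite (ms_true _) measurable_const measurable_const
  exact hf measurableSet_Iic

theorem measurableSet_B : MeasurableSet B := by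
  have : B = {b : J → Bool | b none = true} ∩ ⋂ n : ℕ, {b : J → Bool |
    2 * ((Finset.range (n + 6)).filter fun j => b (some (n, j)) = true).card ≤ n + 6} := by
    ext b; simp [B]
  rw [this]
  exact MeasurableSet.inter (ms_true _) (MeasurableSet.iInter fun n => measurableSet_blk n)

/-- The event attached to `x`. -/
def G (x : X) : Set Om := {y | (fun j => y (x j)) ∈ B}

theorem measurableSet_G (x : X) : MeasurableSet (G x) :=
  (measurable_tosses x) measurableSet_B

theorem blk_small (n : ℕ) (a : ℕ → I) (ha : Set.InjOn a (Finset.range (n + 6))) :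
    lam {y | ¬ (2 * ((Finset.range (n + 6)).filter fun j => y (a j) = true).card ≤ n + 6)} ≤
      (1 / 2) ^ (n + 6) := by
  classical
  set m := n + 6 with hm
  let P := (Finset.range m).powerset.filter fun A => m ≤ 2 * A.card
  have hsub : {y : Om | ¬ (2 * ((Finset.range m).filter fun j => y (a j) = true).card ≤ m)} ⊆
      ⋃ A ∈ P, {y : Om | ∀ c ∈ A.image a, y c = true} := by
    intro y hy
    simp only [mem_ofPred_eq, not_le] at hy
    simp only [mem_iUnion]
    refine ⟨(Finset.range m).filter fun j => y (a j) = true, ?_, ?_⟩
    · simp only [P, Finset.mem_filter, Finset.mem_powerset, Finset.filter_subset, true_and]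
      exact hy.le
    · intro c hc
      simp only [Finset.mem_image, Finset.mem_filter] at hc
      obtain ⟨j, ⟨_, h2⟩, rfl⟩ := hc
      exact h2
  refine (measure_mono hsub).trans ((measure_biUnion_finset_le _ _).trans ?_)
  have hterm : ∀ A ∈ P, lam {y : Om | ∀ c ∈ A.image a, y c = true} ≤ (1 / 4) ^ m := by
    intro A hA
    simp only [P, Finset.mem_filter, Finset.mem_powerset] at hA
    rw [lam_true, Finset.card_image_of_injOn (ha.mono (by exact_mod_cast hA.1))]
    have h16 : (1 / 16 : ℝ≥0∞) = (1 / 4) ^ 2 := by
      rw [one_div, one_div, ← ENNReal.inv_pow]; norm_num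
    rw [h16, ← pow_mul]
    refine pow_le_pow_of_le_one (by simp) ?_ hA.2
    rw [one_div]; exact ENNReal.inv_le_one.2 (by norm_num)
  refine (Finset.sum_le_card_nsmul _ _ _ hterm).trans ?_
  have hcard : P.card ≤ 2 ^ m := by
    refine (Finset.card_filter_le _ _).trans ?_
    rw [Finset.card_powerset, Finset.card_range]
  calc P.card • (1 / 4 : ℝ≥0∞) ^ m ≤ (2 ^ m : ℕ) • (1 / 4 : ℝ≥0∞) ^ m := by
        gcongr
    _ = (1 / 2) ^ m := by
        rw [nsmul_eq_mul, Nat.cast_pow, ← mul_pow]
        congr 1
        rw [Nat.cast_ofNat, one_div, one_div]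
        have : (4 : ℝ≥0∞) = 2 * 2 := by norm_num
        rw [this, ENNReal.mul_inv (by norm_num) (by norm_num), ← mul_assoc,
          ENNReal.mul_inv_cancel (by norm_num) (by norm_num), one_mul]

theorem G_pos (x : X) (hx : ∀ n : ℕ, Set.InjOn (fun j => x (some (n, j))) (Finset.range (n + 6))) :
    0 < lam (G x) := by
  set E : ℕ → Set Om := fun n => {y | ¬ (2 * ((Finset.range (n + 6)).filter
    fun j => y (x (some (n, j))) = true).card ≤ n + 6)} with hE
  have hsub : {y : Om | y (x none) = true} ⊆ G x ∪ ⋃ n, E n := by
    intro y hy
    by_cases h : y ∈ ⋃ n, E n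
    · exact Or.inr h
    · refine Or.inl ⟨hy, fun n => ?_⟩
      by_contra hc
      exact h (mem_iUnion.2 ⟨n, hc⟩)
  have h1 : lam {y : Om | y (x none) = true} = 1 / 16 := by
    have := lam_true {x none}
    simpa using this
  have h2 : lam (⋃ n, E n) ≤ 1 / 32 := by
    refine (measure_iUnion_le _).trans ?_
    refine (ENNReal.tsum_le_tsum fun n => blk_small n _ (hx n)).trans ?_
    have : (fun n : ℕ => (1 / 2 : ℝ≥0∞) ^ (n + 6)) = fun n => (1 / 2) ^ 6 * (1 / 2) ^ n := by
      funext n; rw [pow_add, mul_comm]
    rw [this, ENNReal.tsum_mul_left, ENNReal.tsum_geometric]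
    have h3 : (1 - 1 / 2 : ℝ≥0∞)⁻¹ = 2 := by
      rw [one_div, ENNReal.one_sub_inv_two, inv_inv]
    rw [h3, one_div, one_div, ← ENNReal.inv_pow]
    have : ((2 : ℝ≥0∞) ^ 6) = 32 * 2 := by norm_num
    rw [this, ENNReal.mul_inv (by norm_num) (by norm_num), mul_assoc,
      ENNReal.inv_mul_cancel (by norm_num) (by norm_num), mul_one]
  by_contra hcon
  have h0 : lam (G x) = 0 := le_antisymm (not_lt.1 hcon) (by simp)
  have h4 : (1 / 16 : ℝ≥0∞) ≤ 1 / 32 := by
    calc (1 / 16 : ℝ≥0∞) = lam {y : Om | y (x none) = true} := h1.symm
      _ ≤ lam (G x ∪ ⋃ n, E n) := measure_mono hsub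
      _ ≤ lam (G x) + lam (⋃ n, E n) := measure_union_le _ _
      _ ≤ 0 + 1 / 32 := by rw [h0]; gcongr
      _ = 1 / 32 := by simp
  rw [one_div, one_div, ENNReal.inv_le_inv] at h4
  norm_num at h4

end Pool.Agent.Helper393.WB
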