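import Pool.Agent.Helper393.WB.A
import Pool.Agent.Helper393.WB.B

set_option autoImplicit false

open MeasureTheory Set TopologicalSpace Filter Topology
open scoped ENNReal

namespace Pool.Agent.Helper393.WB

/-- The compact space of centered families. -/
def K : Set (X → Bool) :=
  {Z | ∀ T : Finset X, (∀ x ∈ T, Z x = true) → 0 < lam {y | ∀ x ∈ T, y ∈ G x}}

theorem isClosed_K : IsClosed K := by
  have : K = ⋂ T ∈ {T : Finset X | ¬ 0 < lam {y | ∀ x ∈ T, y ∈ G x}},
      {Z : X → Bool | ¬ ∀ x ∈ T, Z x = true} := by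
    ext Z
    simp only [K, mem_ofPred_eq, mem_iInter]
    constructor
    · intro h T hT h2; exact hT (h T h2)
    · intro h T hT; by_contra hc; exact h T hc hT
  rw [this]
  refine isClosed_biInter fun T _ => ?_
  have : {Z : X → Bool | ¬ ∀ x ∈ T, Z x = true} = (⋂ x ∈ T, {Z : X → Bool | Z x = true})ᶜ := by
    ext Z; simp
  rw [this, isClosed_compl_iff]
  refine isOpen_biInter_finset fun x _ => ?_
  show IsOpen ((fun Z : X → Bool => Z x) ⁻¹' {true})
  exact (isOpen_discrete _).preimage (continuous_apply x)

instance : CompactSpace K := isCompact_iff_compactSpace.1 isClosed_K.isCompact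

theorem isCompact_K : IsCompact K := isClosed_K.isCompact

theorem K_down {Z Z' : X → Bool} (hZ : Z ∈ K) (h : ∀ x, Z' x = true → Z x = true) : Z' ∈ K :=
  fun T hT => hZ T fun x hx => h x (hT x hx)

theorem K_bot : (fun _ => false : X → Bool) ∈ K := by
  intro T hT
  have : T = ∅ := by
    apply Finset.eq_empty_of_forall_notMem
    intro x hx
    exact absurd (hT x hx) (by simp)
  subst this
  simp

/-- Restriction of a centered family to a set `S`. -/
def r (S : X → Bool) : C(K, K) where
  toFun Z := ⟨fun x => Z.1 x && S x, K_down Z.2 (by intro x hx; simp at hx; exact hx.1)⟩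
  continuous_toFun := by
    apply Continuous.subtype_mk
    apply continuous_pi
    intro x
    have h1 : Continuous fun Z : K => Z.1 x := (continuous_apply x).comp continuous_subtype_val
    exact (continuous_of_discreteTopology (f := fun b : Bool => b && S x)).comp h1

theorem r_apply (S : X → Bool) (Z : K) (x : X) : (r S Z).1 x = (Z.1 x && S x) := rfl

open Classical in
/-- Indicator of a finite set. -/
noncomputable def ind (a : Finset X) : X → Bool := fun x => decide (x ∈ a)

theorem ind_apply (a : Finset X) (x : X) : ind a x = true ↔ x ∈ a := by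
  simp [ind]

open Classical in
/-- Values of `f` on finite centered families, extended by zero. -/
noncomputable def fin (f : C(K, ℝ)) (a : Finset X) : ℝ := if h : ind a ∈ K then f ⟨ind a, h⟩ else 0

theorem fin_of_mem (f : C(K, ℝ)) {a : Finset X} (h : ind a ∈ K) : fin f a = f ⟨ind a, h⟩ := by
  simp [fin, h]

theorem abs_fin_le (f : C(K, ℝ)) (a : Finset X) : |fin f a| ≤ ‖f‖ := by
  unfold fin
  split_ifs with h
  · exact f.norm_coe_le_norm _
  · simp

open Classical in
/-- The elements of `V` whose event contains `y`. -/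
noncomputable def P (V : Finset X) (y : Om) : Finset X := V.filter fun x => y ∈ G x

theorem mem_P {V : Finset X} {y : Om} {x : X} : x ∈ P V y ↔ x ∈ V ∧ y ∈ G x := by
  simp [P]

theorem P_subset (V : Finset X) (y : Om) : P V y ⊆ V := fun _ hx => (mem_P.1 hx).1

theorem measurable_P (V : Finset X) (h : Finset X → ℝ) : Measurable fun y => h (P V y) := by
  classical
  intro t _
  have hlevel : ∀ a : Finset X, a ⊆ V → MeasurableSet {y : Om | P V y = a} := by
    intro a ha
    have : {y : Om | P V y = a} = ⋂ x ∈ V, {y : Om | y ∈ G x ↔ x ∈ a} := by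
      ext y
      simp only [mem_ofPred_eq, mem_iInter]
      constructor
      · rintro rfl x hx
        rw [mem_P]
        exact ⟨fun h => ⟨hx, h⟩, fun h => h.2⟩
      · intro h'
        ext x
        rw [mem_P]
        constructor
        · rintro ⟨h1, h2⟩; exact (h' x h1).1 h2
        · intro h1; exact ⟨ha h1, (h' x (ha h1)).2 h1⟩
    rw [this]
    refine Finset.measurableSet_biInter V fun x _ => ?_
    by_cases hx : x ∈ a
    · simp only [hx, iff_true]; exact measurableSet_G x
    · simp only [hx, iff_false]; exact (measurableSet_G x).compl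
  have : (fun y => h (P V y)) ⁻¹' t = ⋃ a ∈ V.powerset.filter (fun a => h a ∈ t),
      {y : Om | P V y = a} := by
    ext y
    simp only [mem_preimage, mem_iUnion, Finset.mem_filter, Finset.mem_powerset, mem_ofPred_eq,
      exists_prop]
    constructor
    · intro hy; exact ⟨P V y, ⟨P_subset V y, hy⟩, rfl⟩
    · rintro ⟨a, ⟨_, ha⟩, rfl⟩; exact ha
  rw [this]
  refine Finset.measurableSet_biUnion _ fun a ha => ?_
  exact hlevel a (Finset.mem_powerset.1 (Finset.mem_filter.1 ha).1)

theorem ae_P (V : Finset X) : ∀ᵐ y ∂lam, ind (P V y) ∈ K := by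
  classical
  have hnull : lam (⋃ T ∈ V.powerset.filter (fun T => lam {y | ∀ x ∈ T, y ∈ G x} = 0),
      {y | ∀ x ∈ T, y ∈ G x}) = 0 := by
    refine le_antisymm ((measure_biUnion_finset_le _ _).trans ?_) (by simp)
    rw [Finset.sum_eq_zero]
    intro T hT
    exact (Finset.mem_filter.1 hT).2
  rw [ae_iff]
  refine measure_mono_null ?_ hnull
  intro y hy
  simp only [mem_ofPred_eq, K, not_forall] at hy
  obtain ⟨T, hT, h0⟩ := hy
  simp only [mem_iUnion]
  refine ⟨T, ?_, ?_⟩
  · rw [Finset.mem_filter, Finset.mem_powerset]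
    refine ⟨fun x hx => ?_, ?_⟩
    · exact P_subset V y ((ind_apply _ _).1 (hT x hx))
    · exact le_antisymm (not_lt.1 h0) (by simp)
  · intro x hx
    exact (mem_P.1 ((ind_apply _ _).1 (hT x hx))).2

theorem integrable_fin (f : C(K, ℝ)) (V : Finset X) : Integrable (fun y => fin f (P V y)) lam := by
  refine Integrable.of_bound (C := ‖f‖) (measurable_P V (fin f)).aestronglyMeasurable ?_
  exact Eventually.of_forall fun y => abs_fin_le f _

/-- Finite level functionals. -/
noncomputable def nuV (V : Finset X) : StrongDual ℝ C(K, ℝ) :=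
  LinearMap.mkContinuous
    { toFun := fun f => ∫ y, fin f (P V y) ∂lam
      map_add' := by
        intro f g
        rw [← integral_add (integrable_fin f V) (integrable_fin g V)]
        congr 1
        funext y
        unfold fin
        split_ifs <;> simp
      map_smul' := by
        intro c f
        rw [RingHom.id_apply, smul_eq_mul, ← integral_const_mul]
        congr 1
        funext y
        unfold fin
        split_ifs <;> simp } 1 (by
      intro f
      simp only [LinearMap.coe_mk, AddHom.coe_mk, one_mul]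
      have := norm_integral_le_of_norm_le_const (μ := lam) (f := fun y => fin f (P V y)) (C := ‖f‖)
        (Eventually.of_forall fun y => abs_fin_le f _)
      simpa using this)

theorem nuV_apply (V : Finset X) (f : C(K, ℝ)) : nuV V f = ∫ y, fin f (P V y) ∂lam := rfl

theorem norm_nuV (V : Finset X) : ‖nuV V‖ ≤ 1 :=
  LinearMap.mkContinuous_norm_le _ zero_le_one _

/-- `f` depends only on the coordinates in `V`. -/
def Dep (V : Finset X) (f : C(K, ℝ)) : Prop := ∀ Z : K, f (r (ind V) Z) = f Z

theorem nuV_mono {V V' : Finset X} (h : V ⊆ V') {f : C(K, ℝ)} (hf : Dep V f) :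
    nuV V' f = nuV V f := by
  rw [nuV_apply, nuV_apply]
  apply integral_congr_ae
  filter_upwards [ae_P V, ae_P V'] with y h1 h2
  rw [fin_of_mem f h1, fin_of_mem f h2, ← hf]
  congr 1
  apply Subtype.ext
  funext x
  rw [r_apply, Bool.eq_iff_iff, Bool.and_eq_true, ind_apply, ind_apply, ind_apply, mem_P, mem_P]
  constructor
  · rintro ⟨⟨_, h3⟩, h4⟩; exact ⟨h4, h3⟩
  · rintro ⟨h3, h4⟩; exact ⟨⟨h h3, h4⟩, h3⟩

theorem mem_ball_iff (ν : WeakDual ℝ C(K, ℝ)) :
    ν ∈ (WeakDual.toStrongDual ⁻¹' Metric.closedBall (0 : StrongDual ℝ C(K, ℝ)) 1) ↔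
      ‖WeakDual.toStrongDual ν‖ ≤ 1 := by
  rw [mem_preimage, Metric.mem_closedBall]
  have h := dist_zero_right (E := StrongDual ℝ C(K, ℝ)) (WeakDual.toStrongDual ν)
  rw [← h]

/-- The limit functional. -/
theorem exists_nu : ∃ ν : StrongDual ℝ C(K, ℝ), ‖ν‖ ≤ 1 ∧
    ∀ (V : Finset X) (f : C(K, ℝ)), Dep V f → ν f = ∫ y, fin f (P V y) ∂lam := by
  have hc : IsCompact (WeakDual.toStrongDual ⁻¹' Metric.closedBall (0 : StrongDual ℝ C(K, ℝ)) 1) :=
    WeakDual.isCompact_closedBall (𝕜 := ℝ) (E := C(K, ℝ)) 0 1
  have hmem : ∀ V, (StrongDual.toWeakDual (nuV V) : WeakDual ℝ C(K, ℝ)) ∈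
      (WeakDual.toStrongDual ⁻¹' Metric.closedBall (0 : StrongDual ℝ C(K, ℝ)) 1) := by
    intro V
    rw [mem_ball_iff]
    exact norm_nuV V
  obtain ⟨ν, hν, hcl⟩ := hc.exists_mapClusterPt (f := atTop)
    (u := fun V : Finset X => (StrongDual.toWeakDual (nuV V) : WeakDual ℝ C(K, ℝ)))
    (by rw [le_principal_iff, mem_map]; exact Eventually.of_forall hmem)
  refine ⟨WeakDual.toStrongDual ν, ?_, ?_⟩
  · exact (mem_ball_iff ν).1 hν
  · intro V f hf
    have h1 : MapClusterPt (ν f) atTop (fun V' : Finset X => nuV V' f) := by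
      exact MapClusterPt.continuousAt_comp (f := fun φ : WeakDual ℝ C(K, ℝ) => φ f)
        (WeakDual.eval_continuous f).continuousAt hcl
    have h2 : Tendsto (fun V' : Finset X => nuV V' f) atTop (𝓝 (nuV V f)) := by
      refine tendsto_const_nhds.congr' ?_
      filter_upwards [eventually_ge_atTop V] with V' hV'
      exact (nuV_mono hV' hf).symm
    have h3 : ν f = nuV V f := by
      have h4 : ClusterPt (ν f) (𝓝 (nuV V f)) := h1.clusterPt.mono h2
      exact eq_of_nhds_neBot h4
    exact h3

end Pool.Agent.Helper393.WB
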