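import Pool.Agent.Helper393.WB.C

set_option autoImplicit false

open MeasureTheory Set TopologicalSpace Filter Topology
open scoped ENNReal

namespace Pool.Agent.Helper393.WB

/-- A countable family of measurable subsets of `X` separating finite sets. -/
theorem exists_family : ∃ S : ℕ → X → Bool, (∀ n, Measurable (S n)) ∧
    ∀ a F : Finset X, a ⊆ F → ∃ n, ∀ x ∈ F, (S n x = true ↔ x ∈ a) := by
  classical
  let T : Set (Set (Set X)) := {s | s.Finite ∧ s ⊆ countableBasis X}
  have hT : T.Countable := Set.countable_ofPred_finite_subset (countable_countableBasis X)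
  have hTne : T.Nonempty := ⟨∅, by simp [T]⟩
  obtain ⟨t, ht⟩ := hT.exists_eq_range hTne
  refine ⟨fun n x => decide (x ∈ ⋃₀ t n), ?_, ?_⟩
  · intro n
    have hn : t n ∈ T := by rw [ht]; exact ⟨n, rfl⟩
    have ho : MeasurableSet (⋃₀ t n) := by
      refine IsOpen.measurableSet (isOpen_sUnion fun u hu => ?_)
      exact isOpen_of_mem_countableBasis (hn.2 hu)
    refine measurable_to_bool ?_
    have : (fun x => decide (x ∈ ⋃₀ t n)) ⁻¹' {true} = ⋃₀ t n := by
      ext x; simp
    rw [this]; exact ho
  · intro a F ha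
    have hO : IsOpen (((F \ a : Finset X) : Set X)ᶜ) := (Finset.finite_toSet _).isClosed.isOpen_compl
    have hb : ∀ p : X, ∃ u : Set X, p ∈ a → u ∈ countableBasis X ∧ p ∈ u ∧
        u ⊆ ((F \ a : Finset X) : Set X)ᶜ := by
      intro p
      by_cases hp : p ∈ a
      · have hpO : p ∈ (((F \ a : Finset X) : Set X)ᶜ) := by
          simp [hp]
        obtain ⟨u, hu1, hu2, hu3⟩ := (isBasis_countableBasis X).exists_subset_of_mem_open hpO hO
        exact ⟨u, fun _ => ⟨hu1, hu2, hu3⟩⟩
      · exact ⟨∅, fun h => absurd h hp⟩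
    choose u hu using hb
    have hmem : (u '' (a : Set X)) ∈ T := by
      refine ⟨(Finset.finite_toSet a).image u, ?_⟩
      rintro _ ⟨p, hp, rfl⟩
      exact (hu p hp).1
    rw [ht] at hmem
    obtain ⟨n, hn⟩ := hmem
    refine ⟨n, fun x hx => ?_⟩
    show decide (x ∈ ⋃₀ t n) = true ↔ x ∈ a
    rw [hn, decide_eq_true_iff]
    constructor
    · rintro ⟨_, ⟨p, hp, rfl⟩, hxp⟩
      have := (hu p hp).2.2 hxp
      by_contra hxa
      exact this (Finset.mem_coe.2 (Finset.mem_sdiff.2 ⟨hx, hxa⟩))
    · intro hxa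
      exact ⟨u x, ⟨x, hxa, rfl⟩, (hu x hxa).2.1⟩

theorem dep_comp (V : Finset X) (f : C(K, ℝ)) : Dep V (f.comp (r (ind V))) := by
  intro Z
  show f (r (ind V) (r (ind V) Z)) = f (r (ind V) Z)
  congr 1
  apply Subtype.ext
  funext x
  simp only [r_apply]
  cases Z.1 x <;> cases ind V x <;> rfl

/-- Totality. -/
theorem total {ν : StrongDual ℝ C(K, ℝ)} (hν : ‖ν‖ ≤ 1)
    (hν' : ∀ (V : Finset X) (f : C(K, ℝ)), Dep V f → ν f = ∫ y, fin f (P V y) ∂lam)
    {S : ℕ → X → Bool}
    (hS : ∀ a F : Finset X, a ⊆ F → ∃ n, ∀ x ∈ F, (S n x = true ↔ x ∈ a))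
    (f : C(K, ℝ)) (hf : ∀ n, ν (f.comp (r (S n))) = 0) : f = 0 := by
  classical
  -- finite restrictions
  have h1 : ∀ a : Finset X, ν (f.comp (r (ind a))) = 0 := by
    intro a
    have key : ∀ ε > 0, |ν (f.comp (r (ind a)))| ≤ ε := by
      intro ε hε
      obtain ⟨F, hF⟩ := finite_dep isCompact_K f hε
      obtain ⟨n, hn⟩ := hS a (F ∪ a) Finset.subset_union_right
      have hd : ‖f.comp (r (ind a)) - f.comp (r (S n))‖ ≤ ε := by
        rw [ContinuousMap.norm_le _ hε.le]
        intro Z
        apply le_of_lt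
        apply hF
        intro x hx
        have h2 := hn x (Finset.mem_union_left _ hx)
        have h3 : ind a x = S n x := by
          rw [Bool.eq_iff_iff, ind_apply, h2]
        rw [r_apply, r_apply, h3]
      have h4 : ν (f.comp (r (ind a))) = ν (f.comp (r (ind a)) - f.comp (r (S n))) := by
        rw [map_sub, hf n, sub_zero]
      rw [h4, ← Real.norm_eq_abs]
      calc ‖ν (f.comp (r (ind a)) - f.comp (r (S n)))‖
          ≤ ‖ν‖ * ‖f.comp (r (ind a)) - f.comp (r (S n))‖ := ν.le_opNorm _
        _ ≤ 1 * ε := mul_le_mul hν hd (norm_nonneg _) zero_le_one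
        _ = ε := one_mul _
    have h0 : |ν (f.comp (r (ind a)))| ≤ 0 := le_of_forall_pos_le_add (by
      intro ε hε; simpa using key ε hε)
    exact abs_eq_zero.1 (le_antisymm h0 (abs_nonneg _))
  -- values on finite sets
  have h2 : ∀ V : Finset X, ∀ h : ind V ∈ K, f ⟨ind V, h⟩ = 0 := by
    intro V
    induction V using Finset.strongInduction with
    | H V ih =>
      intro h
      have h3 := h1 V
      rw [hν' V _ (dep_comp V f)] at h3
      have h4 : (fun y => fin (f.comp (r (ind V))) (P V y)) =
          fun y => ({y | ∀ x ∈ V, y ∈ G x} : Set Om).indicator (fun _ => f ⟨ind V, h⟩) y := by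
        funext y
        by_cases hy : y ∈ ({y | ∀ x ∈ V, y ∈ G x} : Set Om)
        · rw [indicator_of_mem hy]
          have hP : P V y = V := by
            ext x
            rw [mem_P]
            exact ⟨fun h => h.1, fun h => ⟨h, hy x h⟩⟩
          rw [hP, fin_of_mem _ h]
          show f (r (ind V) ⟨ind V, h⟩) = _
          congr 1
          apply Subtype.ext
          funext x
          simp [r_apply]
        · rw [indicator_of_notMem hy]
          by_cases hK : ind (P V y) ∈ K
          · rw [fin_of_mem _ hK]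
            show f (r (ind V) ⟨ind (P V y), hK⟩) = 0
            have hlt : P V y ⊂ V := by
              refine Finset.ssubset_iff_subset_ne.2 ⟨P_subset V y, fun he => hy ?_⟩
              intro x hx
              rw [← he] at hx
              exact (mem_P.1 hx).2
            rw [← ih _ hlt hK]
            congr 1
            apply Subtype.ext
            funext x
            rw [r_apply, Bool.eq_iff_iff, Bool.and_eq_true, ind_apply, ind_apply]
            exact ⟨fun h => h.1, fun h => ⟨h, P_subset V y h⟩⟩
          · simp [fin, hK]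
      have hms : MeasurableSet ({y | ∀ x ∈ V, y ∈ G x} : Set Om) := by
        have : ({y | ∀ x ∈ V, y ∈ G x} : Set Om) = ⋂ x ∈ V, G x := by ext y; simp
        rw [this]
        exact Finset.measurableSet_biInter V fun x _ => measurableSet_G x
      rw [h4, integral_indicator hms, setIntegral_const, smul_eq_mul, mul_eq_zero] at h3
      rcases h3 with h3 | h3
      · exfalso
        have hpos := h V (fun x hx => (ind_apply V x).2 hx)
        rw [measureReal_def, ENNReal.toReal_eq_zero_iff] at h3
        rcases h3 with h3 | h3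
        · exact hpos.ne' h3
        · exact measure_ne_top _ _ h3
      · exact h3
  -- density
  ext Z
  have key : ∀ ε > 0, |f Z| ≤ ε := by
    intro ε hε
    obtain ⟨F, hF⟩ := finite_dep isCompact_K f hε
    have hK : ind (F.filter fun x => Z.1 x = true) ∈ K := by
      refine K_down Z.2 fun x hx => ?_
      rw [ind_apply] at hx
      exact (Finset.mem_filter.1 hx).2
    have := hF Z ⟨_, hK⟩ (by
      intro x hx
      rw [Bool.eq_iff_iff, ind_apply, Finset.mem_filter]
      exact ⟨fun h => ⟨hx, h⟩, fun h => h.2⟩)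
    rw [h2 _ hK, sub_zero] at this
    exact this.le
  have h0 : |f Z| ≤ 0 := le_of_forall_pos_le_add (by intro ε hε; simpa using key ε hε)
  simpa using abs_eq_zero.1 (le_antisymm h0 (abs_nonneg _))

open Classical in
/-- The limit functional on functions of countably many coordinates. -/
theorem nu_seq {ν : StrongDual ℝ C(K, ℝ)}
    (hν' : ∀ (V : Finset X) (f : C(K, ℝ)), Dep V f → ν f = ∫ y, fin f (P V y) ∂lam)
    (f : C(K, ℝ)) (ξ : ℕ → X) (F : C(ℕ → Bool, ℝ)) (h : ∀ Z : K, f Z = F fun i => Z.1 (ξ i)) :
    ν f = ∫ y, F (fun i => decide (y ∈ G (ξ i))) ∂lam := by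
  let V : ℕ → Finset X := fun n => (Finset.range n).image ξ
  have hbit : ∀ i, Measurable fun y : Om => decide (y ∈ G (ξ i)) := by
    intro i
    refine measurable_to_bool ?_
    have : (fun y : Om => decide (y ∈ G (ξ i))) ⁻¹' {true} = G (ξ i) := by ext y; simp
    rw [this]; exact measurableSet_G _
  -- convergence of `ν f_n`
  have hT1 : Tendsto (fun n => ν (f.comp (r (ind (V n))))) atTop (𝓝 (ν f)) := by
    refine (ν.continuous.tendsto f).comp ?_
    rw [tendsto_iff_norm_sub_tendsto_zero]
    rw [Metric.tendsto_atTop]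
    intro ε hε
    obtain ⟨F0, hF0⟩ := finite_dep isCompact_K f (half_pos hε)
    have hev : ∀ᶠ n in atTop, ∀ x ∈ F0, x ∈ range ξ → x ∈ V n := by
      rw [Filter.eventually_all_finset]
      intro x _
      by_cases hx : x ∈ range ξ
      · obtain ⟨i, rfl⟩ := hx
        filter_upwards [eventually_gt_atTop i] with n hn _
        exact Finset.mem_image.2 ⟨i, Finset.mem_range.2 hn, rfl⟩
      · exact Eventually.of_forall fun n hx' => absurd hx' hx
    obtain ⟨N, hN⟩ := eventually_atTop.1 hev
    refine ⟨N, fun n hn => ?_⟩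
    rw [Real.dist_eq, sub_zero, abs_of_nonneg (norm_nonneg _)]
    refine lt_of_le_of_lt ?_ (half_lt_self hε)
    rw [ContinuousMap.norm_le _ (half_pos hε).le]
    intro Z
    have h3 : f Z = f (r (fun x => decide (x ∈ range ξ)) Z) := by
      rw [h, h]
      congr 1
      funext i
      rw [r_apply]
      simp
    show |f (r (ind (V n)) Z) - f Z| ≤ ε / 2
    rw [h3]
    apply le_of_lt
    apply hF0
    intro x hx
    rw [r_apply, r_apply]
    congr 1
    rw [Bool.eq_iff_iff, ind_apply, decide_eq_true_iff]
    constructor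
    · intro hxV
      obtain ⟨i, _, rfl⟩ := Finset.mem_image.1 hxV
      exact ⟨i, rfl⟩
    · exact hN n hn x hx
  -- the values
  have hval : ∀ n, ν (f.comp (r (ind (V n)))) =
      ∫ y, F (fun i => decide (ξ i ∈ V n ∧ y ∈ G (ξ i))) ∂lam := by
    intro n
    rw [hν' (V n) _ (dep_comp (V n) f)]
    apply integral_congr_ae
    filter_upwards [ae_P (V n)] with y hy
    rw [fin_of_mem _ hy]
    show f (r (ind (V n)) ⟨ind (P (V n) y), hy⟩) = _
    rw [h]
    congr 1
    funext i
    rw [r_apply, Bool.eq_iff_iff, Bool.and_eq_true, ind_apply, ind_apply, mem_P,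
      decide_eq_true_iff]
    exact ⟨fun h => h.1, fun h => ⟨h, h.1⟩⟩
  have hT2 : Tendsto (fun n => ∫ y, F (fun i => decide (ξ i ∈ V n ∧ y ∈ G (ξ i))) ∂lam) atTop
      (𝓝 (∫ y, F (fun i => decide (y ∈ G (ξ i))) ∂lam)) := by
    refine tendsto_integral_of_dominated_convergence (fun _ => ‖F‖) ?_ (integrable_const _) ?_ ?_
    · intro n
      apply Measurable.aestronglyMeasurable
      refine F.continuous.measurable.comp ?_
      apply measurable_pi_lambda
      intro i
      by_cases hi : ξ i ∈ V n
      · simpa [hi] using hbit i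
      · simp [hi]
    · intro n
      exact Eventually.of_forall fun y => F.norm_coe_le_norm _
    · refine Eventually.of_forall fun y => ?_
      refine (F.continuous.tendsto _).comp ?_
      rw [tendsto_pi_nhds]
      intro i
      refine tendsto_const_nhds.congr' ?_
      filter_upwards [eventually_gt_atTop i] with n hn
      have : ξ i ∈ V n := Finset.mem_image.2 ⟨i, Finset.mem_range.2 hn, rfl⟩
      simp [this]
  have hT1' : Tendsto (fun n => ∫ y, F (fun i => decide (ξ i ∈ V n ∧ y ∈ G (ξ i))) ∂lam) atTop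
      (𝓝 (ν f)) := by
    simpa only [hval] using hT1
  exact tendsto_nhds_unique hT1' hT2

end Pool.Agent.Helper393.WB
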