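import Pool.Agent.Helper393.WB.D

set_option autoImplicit false

open MeasureTheory Set TopologicalSpace Filter Topology
open scoped ENNReal

namespace Pool.Agent.Helper393.WB

local instance instMeasC : MeasurableSpace C(ℕ → Bool, ℝ) := borel _
local instance instBorelC : BorelSpace C(ℕ → Bool, ℝ) := ⟨rfl⟩

/-- Parameter space. -/
abbrev Zs := (ℕ → X) × C(ℕ → Bool, ℝ)

/-- The coordinate map. -/
def rho (ξ : ℕ → X) : C(K, ℕ → Bool) where
  toFun Z := fun i => Z.1 (ξ i)
  continuous_toFun := by
    apply continuous_pi
    intro i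
    exact (continuous_apply (ξ i)).comp continuous_subtype_val

/-- The parametrization of `C(K)`. -/
def param (z : Zs) : C(K, ℝ) := z.2.comp (rho z.1)

theorem param_apply (z : Zs) (Z : K) : param z Z = z.2 fun i => Z.1 (z.1 i) := rfl

theorem param_surjective : Function.Surjective param := by
  intro f
  obtain ⟨ξ, F, h⟩ := exists_factor isCompact_K f
  exact ⟨(ξ, F), by ext Z; exact (h Z).symm⟩

/-- The kernel of coin tosses along the parameters. -/
noncomputable def kern : ProbabilityTheory.Kernel Zs (ℕ × J → Bool) where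
  toFun z := law fun p : ℕ × J => z.1 p.1 p.2
  measurable' := by
    refine measurable_law.comp ?_
    apply measurable_pi_lambda
    intro p
    exact (measurable_pi_apply p.2).comp ((measurable_pi_apply p.1).comp measurable_fst)

theorem kern_apply (z : Zs) : kern z = law fun p : ℕ × J => z.1 p.1 p.2 := rfl

instance : ProbabilityTheory.IsMarkovKernel kern := ⟨fun z => by rw [kern_apply]; infer_instance⟩

theorem measurable_eval : Measurable fun p : C(ℕ → Bool, ℝ) × (ℕ → Bool) => p.1 p.2 := by
  apply Continuous.measurable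
  fun_prop

open Classical in
theorem measurable_bit (i : ℕ) : Measurable fun b : ℕ × J → Bool =>
    decide ((fun j => b (i, j)) ∈ B) := by
  refine measurable_to_bool ?_
  have : (fun b : ℕ × J → Bool => decide ((fun j => b (i, j)) ∈ B)) ⁻¹' {true} =
      (fun (b : ℕ × J → Bool) (j : J) => b (i, j)) ⁻¹' B := by ext y; simp
  rw [this]
  refine measurableSet_B.preimage ?_
  apply measurable_pi_lambda
  intro j
  exact measurable_pi_apply (i, j)

open Classical in
theorem measurable_coord {ν : StrongDual ℝ C(K, ℝ)}
    (hν' : ∀ (V : Finset X) (f : C(K, ℝ)), Dep V f → ν f = ∫ y, fin f (P V y) ∂lam)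
    (S : X → Bool) (hS : Measurable S) : Measurable fun z : Zs => ν ((param z).comp (r S)) := by
  have h1 : ∀ z : Zs, ν ((param z).comp (r S)) =
      ∫ b, z.2 (fun i => decide ((fun j => b (i, j)) ∈ B) && S (z.1 i)) ∂(kern z) := by
    intro z
    let m : C(ℕ → Bool, ℕ → Bool) :=
      ⟨fun u i => u i && S (z.1 i), by
        apply continuous_pi
        intro i
        exact (continuous_of_discreteTopology (f := fun b : Bool => b && S (z.1 i))).comp
          (continuous_apply i)⟩
    have h2 := nu_seq hν' ((param z).comp (r S)) z.1 (z.2.comp m) (by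
      intro Z
      rfl)
    rw [h2, kern_apply, law, integral_map]
    · rfl
    · exact (measurable_tosses _).aemeasurable
    · apply Measurable.aestronglyMeasurable
      refine z.2.continuous.measurable.comp ?_
      apply measurable_pi_lambda
      intro i
      exact (measurable_from_top (f := fun b : Bool => b && S (z.1 i))).comp (measurable_bit i)
  have h3 : Measurable fun p : Zs × (ℕ × J → Bool) =>
      p.1.2 (fun i => decide ((fun j => p.2 (i, j)) ∈ B) && S (p.1.1 i)) := by
    refine measurable_eval.comp (Measurable.prodMk (measurable_snd.comp measurable_fst) ?_)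
    apply measurable_pi_lambda
    intro i
    have h4 : Measurable fun p : Zs × (ℕ × J → Bool) =>
        (decide ((fun j => p.2 (i, j)) ∈ B), S (p.1.1 i)) := by
      refine Measurable.prodMk ((measurable_bit i).comp measurable_snd) ?_
      exact hS.comp ((measurable_pi_apply i).comp (measurable_fst.comp measurable_fst))
    exact (Measurable.of_discrete (f := fun q : Bool × Bool => q.1 && q.2)).comp h4
  have h5 := (h3.stronglyMeasurable.integral_kernel_prod_right' (κ := kern)).measurable
  have h6 : (fun z : Zs => ν ((param z).comp (r S))) = fun z : Zs =>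
      ∫ b, z.2 (fun i => decide ((fun j => b (i, j)) ∈ B) && S (z.1 i)) ∂(kern z) := funext h1
  rw [h6]
  exact h5

open Classical in
theorem norm_param_le_iff (z : Zs) (c : ℝ) (hc : 0 ≤ c) : ‖param z‖ ≤ c ↔
    ∀ A : Finset ℕ, kern z {b | ∀ i ∈ A, (fun j => b (i, j)) ∈ B} ≠ 0 →
      |z.2 (fun j => decide (∃ i ∈ A, z.1 i = z.1 j))| ≤ c := by
  have hms : ∀ A : Finset ℕ, MeasurableSet {b : ℕ × J → Bool | ∀ i ∈ A, (fun j => b (i, j)) ∈ B} := by
    intro A
    have : {b : ℕ × J → Bool | ∀ i ∈ A, (fun j => b (i, j)) ∈ B} =
        ⋂ i ∈ A, (fun (b : ℕ × J → Bool) (j : J) => b (i, j)) ⁻¹' B := by ext b; simp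
    rw [this]
    refine Finset.measurableSet_biInter A fun i _ => measurableSet_B.preimage ?_
    apply measurable_pi_lambda
    intro j
    exact measurable_pi_apply (i, j)
  have hk : ∀ A : Finset ℕ, kern z {b | ∀ i ∈ A, (fun j => b (i, j)) ∈ B} =
      lam {y | ∀ i ∈ A, y ∈ G (z.1 i)} := by
    intro A
    rw [kern_apply, law_apply _ (hms A)]
    rfl
  rw [ContinuousMap.norm_le _ hc]
  constructor
  · intro h A hA
    rw [hk] at hA
    have hK : ind (A.image z.1) ∈ K := by
      intro T hT
      refine lt_of_lt_of_le (pos_iff_ne_zero.2 hA) (measure_mono ?_)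
      intro y hy x hx
      have := (ind_apply _ _).1 (hT x hx)
      obtain ⟨i, hi, rfl⟩ := Finset.mem_image.1 this
      exact hy i hi
    have h1 := h ⟨_, hK⟩
    rw [param_apply, Real.norm_eq_abs] at h1
    convert h1 using 4 with j
    show decide (∃ i ∈ A, z.1 i = z.1 j) = ind (A.image z.1) (z.1 j)
    simp [ind]
  · intro h Z
    rw [param_apply, Real.norm_eq_abs]
    let A : ℕ → Finset ℕ := fun n => (Finset.range n).filter fun i => Z.1 (z.1 i) = true
    have hA : ∀ n, kern z {b | ∀ i ∈ A n, (fun j => b (i, j)) ∈ B} ≠ 0 := by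
      intro n
      rw [hk]
      have := Z.2 ((A n).image z.1) (by
        intro x hx
        obtain ⟨i, hi, rfl⟩ := Finset.mem_image.1 hx
        exact (Finset.mem_filter.1 hi).2)
      refine ne_of_gt (lt_of_lt_of_le this (measure_mono ?_))
      intro y hy i hi
      exact hy _ (Finset.mem_image_of_mem _ hi)
    have hT : Tendsto (fun n => |z.2 (fun j => decide (∃ i ∈ A n, z.1 i = z.1 j))|) atTop
        (𝓝 |z.2 fun j => Z.1 (z.1 j)|) := by
      refine ((continuous_abs.comp z.2.continuous).tendsto _).comp ?_
      rw [tendsto_pi_nhds]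
      intro j
      refine tendsto_const_nhds.congr' ?_
      filter_upwards [eventually_gt_atTop j] with n hn
      rw [Bool.eq_iff_iff, decide_eq_true_iff]
      constructor
      · intro hj
        exact ⟨j, Finset.mem_filter.2 ⟨Finset.mem_range.2 hn, hj⟩, rfl⟩
      · rintro ⟨i, hi, hij⟩
        rw [← hij]
        exact (Finset.mem_filter.1 hi).2
    exact le_of_tendsto' hT fun n => h _ (hA n)

open Classical in
theorem measurable_norm_param : Measurable fun z : Zs => ‖param z‖ := by
  refine measurable_of_Iic fun c => ?_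
  by_cases hc : 0 ≤ c
  · have h1 : (fun z : Zs => ‖param z‖) ⁻¹' Iic c = ⋂ A : Finset ℕ,
        ({z : Zs | kern z {b | ∀ i ∈ A, (fun j => b (i, j)) ∈ B} ≠ 0}ᶜ ∪
          {z : Zs | |z.2 (fun j => decide (∃ i ∈ A, z.1 i = z.1 j))| ≤ c}) := by
      ext z
      rw [mem_preimage, mem_Iic, norm_param_le_iff z c hc, mem_iInter]
      refine forall_congr' fun A => ?_
      rw [mem_union, mem_compl_iff, mem_ofPred_eq, mem_ofPred_eq, imp_iff_not_or]
    rw [h1]
    refine MeasurableSet.iInter fun A => MeasurableSet.union ?_ ?_
    · have hms : MeasurableSet {b : ℕ × J → Bool | ∀ i ∈ A, (fun j => b (i, j)) ∈ B} := by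
        have : {b : ℕ × J → Bool | ∀ i ∈ A, (fun j => b (i, j)) ∈ B} =
            ⋂ i ∈ A, (fun (b : ℕ × J → Bool) (j : J) => b (i, j)) ⁻¹' B := by ext b; simp
        rw [this]
        refine Finset.measurableSet_biInter A fun i _ => measurableSet_B.preimage ?_
        apply measurable_pi_lambda
        intro j
        exact measurable_pi_apply (i, j)
      have h2 := ProbabilityTheory.Kernel.measurable_coe kern hms
      exact (h2 (measurableSet_singleton (0 : ℝ≥0∞)).compl).compl
    · have h3 : Measurable fun z : Zs => z.2 (fun j => decide (∃ i ∈ A, z.1 i = z.1 j)) := by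
        refine measurable_eval.comp (Measurable.prodMk measurable_snd ?_)
        apply measurable_pi_lambda
        intro j
        refine measurable_to_bool ?_
        have h4 : (fun z : Zs => decide (∃ i ∈ A, z.1 i = z.1 j)) ⁻¹' {true} =
            ⋃ i ∈ A, {z : Zs | z.1 i = z.1 j} := by
          ext z; simp
        have h6 : MeasurableSet ((fun z : Zs => decide (∃ i ∈ A, z.1 i = z.1 j)) ⁻¹' {true}) := by
          rw [h4]
          refine Finset.measurableSet_biUnion A fun i _ => ?_
          have h5 : MeasurableSet {ξ : ℕ → X | ξ i = ξ j} :=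
            (isClosed_eq (continuous_apply i) (continuous_apply j)).measurableSet
          exact measurable_fst h5
        exact h6
      exact (measurable_norm.comp h3) measurableSet_Iic
  · have h1 : (fun z : Zs => ‖param z‖) ⁻¹' Iic c = ∅ := by
      ext z
      simp only [mem_preimage, mem_Iic, mem_empty_iff_false, iff_false, not_le]
      exact lt_of_lt_of_le (not_le.1 hc) (norm_nonneg _)
    rw [h1]
    exact MeasurableSet.empty

/-- Composition with a restriction map, as a continuous linear map. -/
noncomputable def compL (S : X → Bool) : C(K, ℝ) →L[ℝ] C(K, ℝ) :=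
  LinearMap.mkContinuous
    { toFun := fun f : C(K, ℝ) => f.comp (r S)
      map_add' := fun _ _ => rfl
      map_smul' := fun _ _ => rfl } 1 (by
    intro f
    rw [one_mul]
    refine (ContinuousMap.norm_le _ (norm_nonneg _)).2 fun Z => ?_
    exact f.norm_coe_le_norm _)

/-- The `σ`-algebra generated by all continuous linear functionals. -/
@[instance_reducible]
def cyl (E : Type) [NormedAddCommGroup E] [NormedSpace ℝ E] : MeasurableSpace E :=
  ⨆ φ : StrongDual ℝ E, MeasurableSpace.comap φ (borel ℝ)

theorem norm_measurable_cyl : Measurable[cyl C(K, ℝ), borel ℝ] fun f : C(K, ℝ) => ‖f‖ := by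
  obtain ⟨ν, hν, hν'⟩ := exists_nu
  obtain ⟨S, hS, hsep⟩ := exists_family
  let T : C(K, ℝ) → ℕ → ℝ := fun f n => ν (f.comp (r (S n)))
  have hTinj : Function.Injective T := by
    intro f g hfg
    have : f - g = 0 := by
      apply total hν hν' hsep
      intro n
      have h1 : (f - g).comp (r (S n)) = f.comp (r (S n)) - g.comp (r (S n)) := rfl
      rw [h1, map_sub, sub_eq_zero]
      exact congrFun hfg n
    exact sub_eq_zero.1 this
  let m : MeasurableSpace C(K, ℝ) := MeasurableSpace.comap T inferInstance
  have hm : m ≤ cyl C(K, ℝ) := by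
    have hT : Measurable[cyl C(K, ℝ)] T := by
      refine @measurable_pi_lambda _ _ _ (cyl C(K, ℝ)) _ _ fun n => ?_
      let φ : StrongDual ℝ C(K, ℝ) := ν.comp (compL (S n))
      have h1 : (fun f : C(K, ℝ) => T f n) = φ := rfl
      have h2 : Measurable[cyl C(K, ℝ), borel ℝ] φ := by
        rw [measurable_iff_comap_le]
        exact le_iSup (fun φ : StrongDual ℝ C(K, ℝ) => MeasurableSpace.comap φ (borel ℝ)) φ
      rw [BorelSpace.measurable_eq (α := ℝ)]
      exact h2
    exact measurable_iff_comap_le.1 hT
  have hpm : @Measurable Zs C(K, ℝ) _ m param := by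
    rw [measurable_comap_iff]
    apply measurable_pi_lambda
    intro n
    exact measurable_coord hν' (S n) (hS n)
  have hcg : @MeasurableSpace.CountablyGenerated C(K, ℝ) m := MeasurableSpace.CountablyGenerated.comap T
  have hsp : @MeasurableSpace.SeparatesPoints C(K, ℝ) m := by
    refine @MeasurableSpace.SeparatesPoints.mk _ m fun x y h => hTinj ?_
    refine MeasurableSpace.separatesPoints_def fun s hs hx => ?_
    exact h (T ⁻¹' s) ⟨s, hs, rfl⟩ hx
  have hcs : @MeasurableSpace.CountablySeparated C(K, ℝ) m :=
    @MeasurableSpace.countablySeparated_of_separatesPoints _ m hcg hsp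
  have h := (@Measurable.measurable_comp_iff_of_surjective Zs C(K, ℝ) ℝ _ _ _ m hcs param hpm
    param_surjective (fun f : C(K, ℝ) => ‖f‖)).1 measurable_norm_param
  rw [← BorelSpace.measurable_eq (α := ℝ)]
  exact h.mono hm le_rfl

end Pool.Agent.Helper393.WB
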