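import Pool.Agent.Helper393.WB.E

set_option autoImplicit false

open MeasureTheory Set TopologicalSpace Filter Topology
open scoped ENNReal

namespace Pool.Agent.Helper393.WB

theorem mk_I : Cardinal.mk I = Cardinal.continuum := by
  simp

theorem uncountable_I : ¬ (Set.univ : Set I).Countable := by
  intro h
  have h1 := (Set.countable_univ_iff.1 h)
  have h2 : Cardinal.mk I ≤ Cardinal.aleph0 := Cardinal.mk_le_aleph0_iff.2 h1
  rw [mk_I] at h2
  exact absurd h2 (not_le.2 Cardinal.aleph0_lt_continuum)

/-- Coordinate function. -/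
noncomputable def e (x : X) : C(K, ℝ) where
  toFun Z := if Z.1 x = true then 1 else 0
  continuous_toFun := by
    have h1 : Continuous fun Z : K => Z.1 x := (continuous_apply x).comp continuous_subtype_val
    exact (continuous_of_discreteTopology (f := fun b : Bool => if b = true then (1 : ℝ) else 0)).comp h1

theorem e_apply (x : X) (Z : K) : e x Z = if Z.1 x = true then 1 else 0 := rfl

/-- Evaluation functional. -/
noncomputable def ev (Z : K) : StrongDual ℝ C(K, ℝ) :=
  LinearMap.mkContinuous
    { toFun := fun f : C(K, ℝ) => f Z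
      map_add' := fun _ _ => rfl
      map_smul' := fun _ _ => rfl } 1 (by
    intro f
    rw [one_mul]
    exact f.norm_coe_le_norm _)

theorem ev_apply (Z : K) (f : C(K, ℝ)) : ev Z f = f Z := rfl

theorem norm_ev (Z : K) : ‖ev Z‖ ≤ 1 := LinearMap.mkContinuous_norm_le _ zero_le_one _

/-- The combinatorial heart: no sequence of functionals in the dual ball takes values larger than
`3/4` on all the coordinate functions. -/
theorem no_seq (φ : ℕ → StrongDual ℝ C(K, ℝ)) (hφ : ∀ n, ‖φ n‖ ≤ 1) :
    ∃ x : X, 0 < lam (G x) ∧ ∀ n, φ n (e x) ≤ 3 / 4 := by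
  classical
  let A : ℕ → Set I := fun n => {α | ∃ x : X, x none = α ∧ 3 / 4 < φ n (e x)}
  have hI : Infinite I := by
    by_contra hcon
    rw [not_infinite_iff_finite] at hcon
    exact uncountable_I (Set.to_countable _)
  have ha : ∀ n, ∃ a : ℕ → I, Function.Injective a ∧ ((A n).Infinite → ∀ j, a j ∈ A n) := by
    intro n
    by_cases hn : (A n).Infinite
    · exact ⟨fun j => (Set.Infinite.natEmbedding (A n) hn j : I),
        fun i j hij => (Set.Infinite.natEmbedding (A n) hn).injective (Subtype.ext hij),
        fun _ j => (Set.Infinite.natEmbedding (A n) hn j).2⟩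
    · exact ⟨Infinite.natEmbedding I, (Infinite.natEmbedding I).injective, fun h => absurd h hn⟩
  choose a hainj hamem using ha
  have hcnt : (⋃ n ∈ {n : ℕ | (A n).Finite}, A n).Countable := by
    refine Set.Countable.biUnion (Set.to_countable _) fun n hn => ?_
    exact Set.Finite.countable hn
  obtain ⟨α, hα⟩ : ∃ α : I, α ∉ ⋃ n ∈ {n : ℕ | (A n).Finite}, A n := by
    by_contra hcon
    push Not at hcon
    exact uncountable_I (hcnt.mono fun x _ => hcon x)
  let x : X := fun j => match j with
    | none => α
    | some (n, j) => a n j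
  refine ⟨x, G_pos x fun n => ?_, fun n => ?_⟩
  · exact (hainj n).injOn
  by_contra hcon
  push Not at hcon
  have hαA : α ∈ A n := ⟨x, rfl, hcon⟩
  have hinf : (A n).Infinite := by
    intro hfin
    exact hα (mem_biUnion (show n ∈ {n : ℕ | (A n).Finite} from hfin) hαA)
  have hex : ∀ j, ∃ x' : X, x' none = a n j ∧ 3 / 4 < φ n (e x') := fun j => hamem n hinf j
  choose w hw1 hw2 using hex
  set m := n + 6 with hm
  let g : C(K, ℝ) := ∑ j ∈ Finset.range m, e (w j) + (m : ℝ) • e x
  have hg1 : (3 / 2 : ℝ) * m < φ n g := by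
    have h1 : φ n g = ∑ j ∈ Finset.range m, φ n (e (w j)) + m * φ n (e x) := by
      simp only [g, map_add, map_sum, map_smul, smul_eq_mul]
    rw [h1]
    have h2 : (3 / 4 : ℝ) * m ≤ ∑ j ∈ Finset.range m, φ n (e (w j)) := by
      have := Finset.card_nsmul_le_sum (Finset.range m) (fun j => φ n (e (w j))) (3 / 4)
        (fun j _ => (hw2 j).le)
      rw [Finset.card_range, nsmul_eq_mul] at this
      linarith
    have hmpos : (0 : ℝ) < m := by rw [hm]; positivity
    have h3 : (3 / 4 : ℝ) * m < m * φ n (e x) := by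
      rw [mul_comm]; exact mul_lt_mul_of_pos_left hcon hmpos
    linarith
  have hg2 : (3 / 2 : ℝ) * m < ‖g‖ := by
    refine lt_of_lt_of_le hg1 ((le_abs_self _).trans ?_)
    calc |φ n g| ≤ ‖φ n‖ * ‖g‖ := (φ n).le_opNorm g
      _ ≤ 1 * ‖g‖ := mul_le_mul_of_nonneg_right (hφ n) (norm_nonneg _)
      _ = ‖g‖ := one_mul _
  obtain ⟨Z, hZ⟩ : ∃ Z : K, (3 / 2 : ℝ) * m < |g Z| := by
    by_contra hcon2
    push Not at hcon2
    have : ‖g‖ ≤ 3 / 2 * m := (ContinuousMap.norm_le _ (by positivity)).2 hcon2
    linarith
  have hgZ : g Z = ((Finset.range m).filter fun j => Z.1 (w j) = true).card +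
      m * (if Z.1 x = true then 1 else 0) := by
    simp only [g, ContinuousMap.add_apply, ContinuousMap.sum_apply, ContinuousMap.smul_apply,
      e_apply, smul_eq_mul, Finset.card_filter]
    push_cast
    rfl
  have hcard : (((Finset.range m).filter fun j => Z.1 (w j) = true).card : ℝ) ≤ m := by
    have := Finset.card_filter_le (Finset.range m) fun j => Z.1 (w j) = true
    rw [Finset.card_range] at this
    exact_mod_cast this
  have hmpos : (0 : ℝ) < m := by rw [hm]; positivity
  rw [abs_of_nonneg (by rw [hgZ]; positivity), hgZ] at hZ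
  have hZx : Z.1 x = true := by
    by_contra h
    rw [if_neg h] at hZ
    linarith
  rw [if_pos hZx, mul_one] at hZ
  have hcard2 : (m : ℝ) < 2 * (((Finset.range m).filter fun j => Z.1 (w j) = true).card : ℝ) := by
    linarith
  have hcard3 : m < 2 * ((Finset.range m).filter fun j => Z.1 (w j) = true).card := by
    exact_mod_cast hcard2
  -- the finite centered family
  have hpos := Z.2 (insert x (((Finset.range m).filter fun j => Z.1 (w j) = true).image w)) (by
    intro v hv
    rw [Finset.mem_insert] at hv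
    rcases hv with rfl | hv
    · exact hZx
    · obtain ⟨j, hj, rfl⟩ := Finset.mem_image.1 hv
      exact (Finset.mem_filter.1 hj).2)
  obtain ⟨y, hy⟩ := nonempty_of_measure_ne_zero hpos.ne'
  have hyx : y ∈ G x := hy x (Finset.mem_insert_self _ _)
  have hblk := hyx.2 n
  have hsub : ((Finset.range m).filter fun j => Z.1 (w j) = true) ⊆
      (Finset.range m).filter fun j => y (x (some (n, j))) = true := by
    intro j hj
    rw [Finset.mem_filter] at hj ⊢
    refine ⟨hj.1, ?_⟩
    have hyw : y ∈ G (w j) := hy _ (Finset.mem_insert_of_mem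
      (Finset.mem_image_of_mem w (Finset.mem_filter.2 hj)))
    have h1 : y (w j none) = true := hyw.1
    rw [hw1 j] at h1
    exact h1
  have := Finset.card_le_card hsub
  have hblk' : 2 * ((Finset.range m).filter fun j => y (x (some (n, j))) = true).card ≤ m := hblk
  omega

/-- The closed unit ball of the dual in the weak* topology. -/
def dualBall (E : Type) [NormedAddCommGroup E] [NormedSpace ℝ E] : Set (WeakDual ℝ E) :=
  {φ | ‖WeakDual.toStrongDual φ‖ ≤ 1}

theorem not_separable : ¬ SeparableSpace (dualBall C(K, ℝ)) := by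
  intro hsep
  have hne : Nonempty (dualBall C(K, ℝ)) := ⟨⟨0, by simp [dualBall]⟩⟩
  let d : ℕ → dualBall C(K, ℝ) := denseSeq _
  obtain ⟨x, hx, hφ⟩ := no_seq (fun n => WeakDual.toStrongDual (d n).1) (fun n => (d n).2)
  have hK : ind {x} ∈ K := by
    intro T hT
    refine lt_of_lt_of_le hx (measure_mono ?_)
    intro y hy v hv
    have := (ind_apply _ _).1 (hT v hv)
    rw [Finset.mem_singleton] at this
    rw [this]; exact hy
  let U : Set (dualBall C(K, ℝ)) := {φ | 3 / 4 < φ.1 (e x)}
  have hU : IsOpen U := by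
    have hc : Continuous fun φ : dualBall C(K, ℝ) => φ.1 (e x) :=
      (WeakDual.eval_continuous (e x)).comp continuous_subtype_val
    exact isOpen_lt continuous_const hc
  have hUne : U.Nonempty := by
    refine ⟨⟨StrongDual.toWeakDual (ev ⟨_, hK⟩), norm_ev _⟩, ?_⟩
    show 3 / 4 < ev ⟨_, hK⟩ (e x)
    rw [ev_apply, e_apply]
    simp [ind]
    norm_num
  obtain ⟨n, hn⟩ := (denseRange_denseSeq (dualBall C(K, ℝ))).exists_mem_open hU hUne
  exact absurd (hφ n) (not_le.2 hn)

end Pool.Agent.Helper393.WB
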